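import Pool.Agent.Q12.NaryLength

/-!
The length of a `k`-dimensional `(A, C)`-commutative `n`-ary algebra is at most the generalised
Fibonacci number `F_N(k)` with `N = 2^(n-a+1) * 3 * 5 * ... * p_a`.
-/

namespace Pool.Agent.Results.MP_dca5dd_al.LengthBound

open Q12.NaryLength

/-- The number `r` such that `p_r` is the largest prime divisor of `N` (`0` if there is none);
`Nat.count Nat.Prime p` is the number of primes smaller than `p`. -/
def rk (N : ℕ) : ℕ := N.primeFactors.sup fun p => Nat.count Nat.Prime p + 1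

/-- The generalised Fibonacci numbers: if `N = p_1^{a_1} ... p_r^{a_r}` then `F_N(m) = 1` for
`m ≤ r` and `F_N(m) = a_1 F_N(m-1) + ... + a_r F_N(m-r)` for `m > r`. Here the `(i+1)`-st prime
is `Nat.nth Nat.Prime i`. -/
noncomputable def genFib (N : ℕ) (m : ℕ) : ℕ :=
  if _h : m ≤ rk N then 1
  else ∑ i : Fin (rk N), N.factorization (Nat.nth Nat.Prime i) * genFib N (m - (i + 1))
termination_by m
decreasing_by omega

/-- `N_{n,a} = 2^(n-a+1) * 3 * 5 * ... * p_a`. -/
noncomputable def Nna (n a : ℕ) : ℕ := 2 ^ (n - a + 1) * ∏ i ∈ Finset.Ico 1 a, Nat.nth Nat.Prime i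

section defs

variable {K V : Type*} [Field K] [AddCommGroup V] [Module K V] {n : ℕ}

/-- `(A, C)`-commutativity of the `n`-ary product `μ`. -/
def IsACCommutative (A C : Finset (Fin n)) (μ : MultilinearMap K (fun _ : Fin n => V) V) : Prop :=
  (∀ x : Fin n → V, ∀ i ∈ A, ∀ j ∈ A, i ≠ j → μ (x ∘ Equiv.swap i j) = - μ x) ∧
  (∀ x : Fin n → V, ∀ i ∈ C, ∀ j ∈ C, i ≠ j → μ (x ∘ Equiv.swap i j) = μ x)

/-- The union of the spaces `L_i(S)` is the whole algebra. -/
def Generates (μ : MultilinearMap K (fun _ : Fin n => V) V) (S : Finset V) : Prop :=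
  ∀ v : V, ∃ i, v ∈ Lsp μ (S : Set V) i

/-- `l(S)`, the least `i ≥ 1` such that `L_i(S)` is the whole algebra. -/
noncomputable def lenOf (μ : MultilinearMap K (fun _ : Fin n => V) V) (S : Finset V) : ℕ :=
  sInf {i | 1 ≤ i ∧ Lsp μ (S : Set V) i = ⊤}

/-- The length of the algebra: the supremum of `l(S)` over all finite generating sets `S`. -/
noncomputable def len (μ : MultilinearMap K (fun _ : Fin n => V) V) : ℕ∞ :=
  ⨆ (S : Finset V) (_ : Generates μ S), (lenOf μ S : ℕ∞)

end defs

section fib

theorem prime_nth (i : ℕ) : (Nat.nth Nat.Prime i).Prime := Nat.prime_nth_prime i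

/-- exponents -/
def ex (n a : ℕ) (i : ℕ) : ℕ := if i = 0 then n - a + 1 else 1

theorem Nna_eq (n a : ℕ) (ha : 1 ≤ a) :
    Nna n a = ∏ i ∈ Finset.range a, Nat.nth Nat.Prime i ^ ex n a i := by
  obtain ⟨b, rfl⟩ : ∃ b, a = b + 1 := ⟨a - 1, by omega⟩
  rw [Finset.prod_range_succ', Nna, Finset.prod_Ico_eq_prod_range, mul_comm]
  congr 1
  · refine Finset.prod_congr (by simp) fun i _ => ?_
    simp [ex, add_comm]
  · simp [ex]

theorem nth_inj {i j : ℕ} (h : Nat.nth Nat.Prime i = Nat.nth Nat.Prime j) : i = j :=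
  Nat.nth_injective Nat.infinite_setOfPred_prime h

theorem fact_Nna (n a : ℕ) (ha : 1 ≤ a) (j : ℕ) :
    (Nna n a).factorization (Nat.nth Nat.Prime j) = if j < a then ex n a j else 0 := by
  rw [Nna_eq n a ha, Nat.factorization_prod fun i _ => (pow_pos (prime_nth i).pos _).ne',
    Finsupp.finsetSum_apply]
  have h1 : ∀ i, (Nat.nth Nat.Prime i ^ ex n a i).factorization (Nat.nth Nat.Prime j) =
      if i = j then ex n a j else 0 := by
    intro i
    rw [(prime_nth i).factorization_pow, Finsupp.single_apply]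
    by_cases hij : i = j
    · subst hij
      simp
    · rw [if_neg (fun h => hij (nth_inj h)), if_neg hij]
  simp_rw [h1]
  rw [Finset.sum_ite_eq']
  simp

theorem Nna_ne_zero (n a : ℕ) (ha : 1 ≤ a) : Nna n a ≠ 0 := by
  rw [Nna_eq n a ha]
  exact (Finset.prod_pos fun i _ => pow_pos (prime_nth i).pos _).ne'

theorem ex_pos (n a i : ℕ) : 1 ≤ ex n a i := by
  unfold ex
  split <;> omega

theorem rk_Nna (n a : ℕ) (ha : 1 ≤ a) : rk (Nna n a) = a := by
  apply le_antisymm
  · refine Finset.sup_le fun p hp => ?_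
    have hpp := Nat.prime_of_mem_primeFactors hp
    have h1 : Nat.nth Nat.Prime (Nat.count Nat.Prime p) = p := Nat.nth_count hpp
    have h2 : (Nna n a).factorization p ≠ 0 := by
      rw [← Finsupp.mem_support_iff, Nat.support_factorization]
      exact hp
    rw [← h1, fact_Nna n a ha] at h2
    by_contra hcon
    rw [if_neg (by omega)] at h2
    exact h2 rfl
  · have h1 : Nat.nth Nat.Prime (a - 1) ∈ (Nna n a).primeFactors := by
      rw [← Nat.support_factorization, Finsupp.mem_support_iff, fact_Nna n a ha,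
        if_pos (by omega)]
      have := ex_pos n a (a - 1)
      omega
    have h2 := Finset.le_sup (f := fun p => Nat.count Nat.Prime p + 1) h1
    have h3 : Nat.count Nat.Prime (Nat.nth Nat.Prime (a - 1)) = a - 1 :=
      Nat.count_nth_of_infinite Nat.infinite_setOfPred_prime _
    rw [h3] at h2
    unfold rk
    omega

theorem genFib_small {n a m : ℕ} (ha : 1 ≤ a) (hm : m ≤ a) : genFib (Nna n a) m = 1 := by
  unfold genFib
  rw [dif_pos (by rw [rk_Nna n a ha]; exact hm)]

theorem genFib_rec {n a m : ℕ} (ha : 1 ≤ a) (hm : a < m) :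
    genFib (Nna n a) m = (n - a + 1) * genFib (Nna n a) (m - 1) +
      ∑ i ∈ Finset.Ico 1 a, genFib (Nna n a) (m - (i + 1)) := by
  have h0 : genFib (Nna n a) m = ∑ i : Fin (rk (Nna n a)),
      (Nna n a).factorization (Nat.nth Nat.Prime i) * genFib (Nna n a) (m - (i + 1)) := by
    conv_lhs => unfold genFib
    rw [dif_neg (by rw [rk_Nna n a ha]; omega)]
  rw [h0, Fin.sum_univ_eq_sum_range (fun i => (Nna n a).factorization (Nat.nth Nat.Prime i) *
    genFib (Nna n a) (m - (i + 1))), rk_Nna n a ha, Finset.range_eq_Ico,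
    Finset.sum_eq_sum_Ico_succ_bot (by omega), fact_Nna n a ha, if_pos (by omega)]
  simp only [ex, if_true]
  congr 1
  refine Finset.sum_congr rfl fun i hi => ?_
  have hi' := Finset.mem_Ico.1 hi
  rw [fact_Nna n a ha, if_pos (by omega)]
  simp only [ex]
  rw [if_neg (by omega), one_mul]

theorem genFib_pos {n a : ℕ} (ha : 1 ≤ a) (m : ℕ) : 1 ≤ genFib (Nna n a) m := by
  induction m using Nat.strong_induction_on with
  | _ m ih =>
    by_cases hm : m ≤ a
    · rw [genFib_small ha hm]
    · rw [genFib_rec ha (by omega)]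
      have h1 := ih (m - 1) (by omega)
      have h2 : 1 * 1 ≤ (n - a + 1) * genFib (Nna n a) (m - 1) :=
        Nat.mul_le_mul (by omega) h1
      omega

end fib

section main

variable {K V : Type*} [Field K] [AddCommGroup V] [Module K V] [FiniteDimensional K V] {n : ℕ}

theorem ch_le_genFib {μ : MultilinearMap K (fun _ : Fin n => V) V} {S : Set V}
    (hn : 2 ≤ n) (h2 : (2 : K) ≠ 0) (A : Finset (Fin n)) (_hA1 : A.card ≠ 1)
    (hA : ∀ x : Fin n → V, ∀ i ∈ A, ∀ j ∈ A, i ≠ j → μ (x ∘ Equiv.swap i j) = - μ x)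
    {N : ℕ} (hN : Lsp μ S N = ⊤) (h : ℕ) (hh : h < Module.finrank K V) :
    ch μ S h ≤ genFib (Nna n (if A.card = 0 then 1 else A.card)) (h + 1) := by
  set a := if A.card = 0 then 1 else A.card with ha
  have ha1 : 1 ≤ a := by
    rw [ha]
    split <;> omega
  induction h using Nat.strong_induction_on with
  | _ h ih =>
    by_cases hm : 2 ≤ ch μ S h
    · obtain ⟨h3, h4, h5⟩ := ch_bound hn h2 A hA hN hh hm
      have hah : a ≤ h := by
        rw [ha]
        split <;> omega
      rw [genFib_rec ha1 (by omega)]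
      have hpred : ∀ i, i < h → ch μ S (h - 1 - i) ≤ genFib (Nna n a) (h + 1 - (i + 1)) := by
        intro i hi
        have h6 := ih (h - 1 - i) (by omega) (by omega)
        have h7 : h - 1 - i + 1 = h + 1 - (i + 1) := by omega
        rwa [h7] at h6
      have hAn : A.card ≤ n := by simpa using Finset.card_le_univ A
      by_cases hA0 : A.card = 0
      · have haa : a = 1 := by rw [ha, if_pos hA0]
        rw [hA0] at h5
        rw [haa]
        simp only [Finset.range_zero, Finset.sum_empty, add_zero, Nat.sub_zero] at h5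
        have h8 := hpred 0 (by omega)
        rw [haa] at h8
        simp only [Nat.sub_zero, zero_add] at h8
        simp only [Finset.Ico_self, Finset.sum_empty, add_zero]
        have h9 : n - 1 + 1 = n := by omega
        rw [h9]
        exact h5.trans (Nat.mul_le_mul_left n h8)
      · have haa : a = A.card := by rw [ha, if_neg hA0]
        rw [← haa] at h5
        refine h5.trans ?_
        rw [Finset.range_eq_Ico, Finset.sum_eq_sum_Ico_succ_bot (by omega), add_mul, one_mul,
          ← add_assoc]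
        refine Nat.add_le_add (Nat.add_le_add (Nat.mul_le_mul_left _ ?_) ?_) ?_
        · simpa using hpred 0 (by omega)
        · simpa using hpred 0 (by omega)
        · refine Finset.sum_le_sum fun i hi => ?_
          have hi' := Finset.mem_Ico.1 hi
          exact hpred i (by omega)
    · have := genFib_pos (n := n) ha1 (h + 1)
      omega

end main

/-- Every `k`-dimensional (`k ≥ 1`) `(A, C)`-commutative `n`-ary algebra (`n ≥ 2`, `A` and `C`
disjoint, `|A| ≠ 1`) over a field of characteristic not two, in particular over `ℂ`, has length at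
most `F_{N_{n,a}}(k)`, where `a = |A|` if `|A| ≥ 2` and `a = 1` if `A` is empty. -/
theorem result (K V : Type*) [Field K] (hK : (2 : K) ≠ 0) [AddCommGroup V] [Module K V]
    [FiniteDimensional K V] (hV : 1 ≤ Module.finrank K V) (n : ℕ) (hn : 2 ≤ n)
    (A C : Finset (Fin n)) (_hAC : Disjoint A C) (hA : A.card ≠ 1)
    (μ : MultilinearMap K (fun _ : Fin n => V) V) (hμ : IsACCommutative A C μ) :
    len μ ≤ (genFib (Nna n (if A.card = 0 then 1 else A.card)) (Module.finrank K V) : ℕ∞) := by
  refine iSup₂_le fun S hS => ?_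
  have hN : ∃ N, Lsp μ (S : Set V) N = ⊤ := by
    choose f hf using hS
    let b := Module.finBasis K V
    refine ⟨Finset.univ.sup fun i => f (b i), ?_⟩
    rw [eq_top_iff, ← b.span_eq, Submodule.span_le]
    rintro _ ⟨i, rfl⟩
    exact Lsp_mono (Finset.le_sup (f := fun i => f (b i)) (Finset.mem_univ i)) (hf (b i))
  obtain ⟨N, hN⟩ := hN
  have ha1 : 1 ≤ (if A.card = 0 then 1 else A.card) := by split <;> omega
  set a := if A.card = 0 then 1 else A.card with ha
  have h1 := ch_le_genFib hn hK A hA hμ.1 hN (Module.finrank K V - 1) (by omega)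
  rw [← ha] at h1
  have h2 : Module.finrank K V - 1 + 1 = Module.finrank K V := by omega
  rw [h2] at h1
  have h3 := ch_spec (μ := μ) (S := (S : Set V)) hN (h := Module.finrank K V - 1) (by omega)
  rw [h2] at h3
  have h4 : Lsp μ (S : Set V) (ch μ (S : Set V) (Module.finrank K V - 1)) = ⊤ :=
    Submodule.eq_top_of_finrank_eq (le_antisymm (Submodule.finrank_le _) h3)
  have h5 : Lsp μ (S : Set V) (genFib (Nna n a) (Module.finrank K V)) = ⊤ := by
    rw [eq_top_iff, ← h4]
    exact Lsp_mono h1
  have h6 : lenOf μ S ≤ genFib (Nna n a) (Module.finrank K V) :=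
    Nat.sInf_le ⟨genFib_pos ha1 _, h5⟩
  exact_mod_cast h6

end Pool.Agent.Results.MP_dca5dd_al.LengthBound
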